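import Pool.Agent.H43.Qd2

namespace Pool.Agent.Results.MP_e732b6_an.Yes

open MeasureTheory TopologicalSpace Pool.Agent.H43.Qd

universe u

theorem result (G : Type*) [Group G] [Countable G] (X : Type u) [TopologicalSpace X]
    [CompactSpace X] [MetrizableSpace X] [MeasurableSpace X] [BorelSpace X] [MulAction G X]
    [ContinuousConstSMul G X] (μ : Measure X) [IsProbabilityMeasure μ]
    [SMulInvariantMeasure G X μ] :
    (∀ (Y : Type u) [TopologicalSpace Y] [CompactSpace Y] [MetrizableSpace Y] [MeasurableSpace Y]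
      [BorelSpace Y] [MulAction G Y] [ContinuousConstSMul G Y] (ν : Measure Y)
      [IsProbabilityMeasure ν] [SMulInvariantMeasure G Y ν], Erg G ν → QuasiDisjoint G μ ν) ↔
    QuasiDisjoint G μ μ := by
  refine ⟨fun H => of_erg fun ν _ _ => H X ν, fun h Y _ _ _ _ _ _ _ ν _ _ _ => ?_⟩
  letI := metrizableSpaceMetric X
  exact of_self h

end Pool.Agent.Results.MP_e732b6_an.Yes
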